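import Mathlib
import Pool.Agent.Q261.DR.Apply

set_option autoImplicit false

/-!
# Montgomery's `ℓ^q` conjecture for almost all additive twists, `N ≤ T ≤ N²`

For every `D(t) = ∑_{N ≤ n ≤ 2N} b_n n^{it}` with `|b_n| ≤ 1` and every modulus `m`, all but at most
`m N^(-ε/3)` of the `m` twisted polynomials `∑ b_n e(an/m) n^{it}`, `a mod m`, satisfy the inequality
of Q1 simultaneously for all exponents `p ≥ 2` and all `T` with `max(N, N²/m) ≤ T ≤ N²`. For `T ≥ N²`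
no twist is needed for the fourth moment, and for `T < N²` the family need only have `N²/T` members.

The proof: the hybrid fourth moment
`∑_{a mod m} ∑_{t ∈ S_a} |D_a(t)|⁴ ≤ C N^(2+ε) (mT + mN + N²)`
(`Pool/Agent/Q261/DR/Sep.lean`), which rests on the count of the solutions of
`n₁ + n₂ ≡ m₁ + m₂ mod m`, `|n₁n₂ - m₁m₂| ≤ N²/T`.
-/

namespace Pool.Agent.Results.MP_2a1f0e_nt.AdditiveTwists

open Finset

/-- `D(t) = ∑_{N ≤ n ≤ 2N} b_n n^{it}` -/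
noncomputable def D (N : ℕ) (b : ℕ → ℂ) (t : ℝ) : ℂ :=
  ∑ n ∈ Icc N (2 * N), b n * Complex.exp (Complex.I * (t : ℂ) * (Real.log (n : ℝ) : ℂ))

/-- the coefficients `b_n e(an/m)`, `e(x) = exp(2πix)` -/
noncomputable def twist (m a : ℕ) (b : ℕ → ℂ) (n : ℕ) : ℂ :=
  b n * Complex.exp (2 * Real.pi * Complex.I * ((a : ℂ) * n / m))

/-- the inequality of Q1 for all `p ≥ 2` and all `T` with `N ≤ T ≤ N²`, `N² ≤ m T` -/
def Montgomery (C ε : ℝ) (N m : ℕ) (b : ℕ → ℂ) : Prop :=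
  ∀ T : ℕ, N ≤ T → T ≤ N ^ 2 → N ^ 2 ≤ m * T → ∀ p : ℝ, 2 ≤ p →
    ∑ t ∈ Icc 1 T, ‖D N b t‖ ^ p ≤ C * 2 ^ p * (N : ℝ) ^ ε * ((N : ℝ) ^ p + T * (N : ℝ) ^ (p / 2))

lemma D_eq (N m a : ℕ) (b : ℕ → ℂ) (t : ℝ) :
    D N (twist m a b) t = Pool.Agent.Q261.DR.TW (Icc N (2 * N)) m a b t := rfl

lemma D_le (N : ℕ) (hN : 1 ≤ N) (m a : ℕ) (b : ℕ → ℂ) (hb : ∀ n, ‖b n‖ ≤ 1) (t : ℝ) :
    ‖D N (twist m a b) t‖ ≤ 2 * N := by
  have h0 : ∀ n ∈ Icc N (2 * N), ‖twist m a b n * Complex.exp (Complex.I * (t : ℂ) * (Real.log (n : ℝ) : ℂ))‖ ≤ 1 := by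
    intro n _
    unfold twist
    have h1 : (2 * Real.pi * Complex.I * ((a : ℂ) * n / m)) = ((2 * Real.pi * (a * n / m) : ℝ) : ℂ) * Complex.I := by
      push_cast
      ring
    have h2 : (Complex.I * (t : ℂ) * (Real.log (n : ℝ) : ℂ)) = ((t * Real.log n : ℝ) : ℂ) * Complex.I := by
      push_cast
      ring
    rw [norm_mul, norm_mul, h1, h2, Complex.norm_exp_ofReal_mul_I, Complex.norm_exp_ofReal_mul_I, mul_one, mul_one]
    exact hb n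
  unfold D
  have h3 := norm_sum_le_of_le _ h0
  rw [sum_const, Nat.card_Icc, nsmul_eq_mul, mul_one] at h3
  have h4 : ((2 * N + 1 - N : ℕ) : ℝ) ≤ 2 * N := by
    have : 2 * N + 1 - N ≤ 2 * N := by omega
    exact_mod_cast this
  linarith

/-- **Main theorem.** -/
theorem result (ε : ℝ) (hε : 0 < ε) : ∃ C : ℝ, ∀ N m : ℕ, 1 ≤ N → 1 ≤ m →
    ∀ b : ℕ → ℂ, (∀ n, ‖b n‖ ≤ 1) → ∃ B : Finset ℕ, B ⊆ range m ∧ (B.card : ℝ) ≤ m * (N : ℝ) ^ (-(ε / 3)) ∧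
      ∀ a ∈ range m, a ∉ B → Montgomery C ε N m (twist m a b) := by
  classical
  obtain ⟨C, hC, hfour⟩ := Pool.Agent.Q261.DR.fourth ε hε
  refine ⟨C, ?_⟩
  intro N m hN hm b hb
  have hsub : Icc N (2 * N) ⊆ Icc 1 (2 * N) := Icc_subset_Icc_left hN
  obtain ⟨B, hB1, hB2, hB3⟩ := hfour N m hN hm (Icc N (2 * N)) hsub b hb
  refine ⟨B, hB1, hB2, ?_⟩
  intro a ha haB T hT1 hT2 hmT p hp
  have hNr : (1 : ℝ) ≤ N := by exact_mod_cast hN
  have hN0 : (0 : ℝ) < N := by linarith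
  have hT1r : (N : ℝ) ≤ T := by exact_mod_cast hT1
  have hT2r : (T : ℝ) ≤ (N : ℝ) ^ 2 := by exact_mod_cast hT2
  have hmTr : (N : ℝ) ^ 2 ≤ m * T := by exact_mod_cast hmT
  have hT0 : (0 : ℝ) < T := by linarith
  have hinj : Function.Injective (fun t : ℕ => (t : ℝ)) := Nat.cast_injective
  have h1 := hB3 a ha haB T hT1r hT2r hmTr ((Icc 1 T).image (fun t : ℕ => (t : ℝ))) (by
    intro t ht
    obtain ⟨t0, ht0, rfl⟩ := mem_image.1 ht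
    rw [mem_Icc] at ht0
    exact ⟨by positivity, by exact_mod_cast ht0.2⟩) (by
    intro t ht u hu htu
    obtain ⟨t0, ht0, rfl⟩ := mem_image.1 ht
    obtain ⟨u0, hu0, rfl⟩ := mem_image.1 hu
    have h1 : (t0 : ℤ) - u0 ≠ 0 := by
      intro h
      apply htu
      have : (t0 : ℤ) = u0 := by omega
      have h2 : t0 = u0 := by exact_mod_cast this
      rw [h2]
    have h2 := Int.one_le_abs h1
    have h3 : ((1 : ℤ) : ℝ) ≤ ((|(t0 : ℤ) - u0| : ℤ) : ℝ) := by exact_mod_cast h2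
    push_cast at h3
    exact h3)
  rw [sum_image (fun x _ y _ h => hinj h)] at h1
  have hfour' : ∑ t ∈ Icc 1 T, ‖D N (twist m a b) t‖ ^ 4 ≤ C * (N : ℝ) ^ ε * ((N : ℝ) ^ 2 * T) := by
    have h2 : ∀ t ∈ Icc 1 T, ‖D N (twist m a b) (t : ℝ)‖ ^ 4 =
        ‖Pool.Agent.Q261.DR.TW (Icc N (2 * N)) m a b (t : ℝ)‖ ^ 4 := fun t _ => by rw [D_eq]
    rw [sum_congr rfl h2]
    exact h1
  have hNε : 1 ≤ (N : ℝ) ^ ε := Real.one_le_rpow hNr hε.le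
  have h2p : (1 : ℝ) ≤ 2 ^ p := Real.one_le_rpow (by norm_num) (by linarith)
  have hCN : 1 ≤ C * (N : ℝ) ^ ε := by nlinarith
  have hNp : 0 < (N : ℝ) ^ p := Real.rpow_pos_of_pos hN0 _
  have hNp2 : 0 < (N : ℝ) ^ (p / 2) := Real.rpow_pos_of_pos hN0 _
  rcases le_total p 4 with hp4 | hp4
  · -- `x^p ≤ λ^p + λ^(p-4) x^4`, `λ = √N`
    have hl : ∀ x : ℝ, 0 ≤ x → x ^ p ≤ (N : ℝ) ^ (p / 2) + (N : ℝ) ^ (p / 2 - 2) * x ^ 4 := by
      intro x hx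
      have hl0 : 0 < (N : ℝ) ^ (1 / 2 : ℝ) := Real.rpow_pos_of_pos hN0 _
      have hb0 : 0 ≤ (N : ℝ) ^ (p / 2 - 2) := (Real.rpow_pos_of_pos hN0 _).le
      rcases le_total x ((N : ℝ) ^ (1 / 2 : ℝ)) with h | h
      · have h3 : x ^ p ≤ ((N : ℝ) ^ (1 / 2 : ℝ)) ^ p := Real.rpow_le_rpow hx h (by linarith)
        rw [← Real.rpow_mul hN0.le] at h3
        have h4 : 1 / 2 * p = p / 2 := by ring
        rw [h4] at h3
        have : 0 ≤ (N : ℝ) ^ (p / 2 - 2) * x ^ 4 := by positivity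
        linarith
      · have hx0 : 0 < x := lt_of_lt_of_le hl0 h
        have h3 : x ^ p = x ^ (p - 4) * x ^ 4 := by
          rw [← Real.rpow_natCast x 4, ← Real.rpow_add hx0]
          congr 1
          push_cast
          ring
        have h4 : x ^ (p - 4) ≤ ((N : ℝ) ^ (1 / 2 : ℝ)) ^ (p - 4) :=
          Real.rpow_le_rpow_of_nonpos hl0 h (by linarith)
        rw [← Real.rpow_mul hN0.le] at h4
        have h5 : 1 / 2 * (p - 4) = p / 2 - 2 := by ring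
        rw [h5] at h4
        rw [h3]
        have h6 : x ^ (p - 4) * x ^ 4 ≤ (N : ℝ) ^ (p / 2 - 2) * x ^ 4 := by gcongr
        linarith
    have h3 : ∑ t ∈ Icc 1 T, ‖D N (twist m a b) t‖ ^ p ≤
        T * (N : ℝ) ^ (p / 2) + (N : ℝ) ^ (p / 2 - 2) * ∑ t ∈ Icc 1 T, ‖D N (twist m a b) t‖ ^ 4 := by
      calc ∑ t ∈ Icc 1 T, ‖D N (twist m a b) t‖ ^ p ≤
            ∑ t ∈ Icc 1 T, ((N : ℝ) ^ (p / 2) + (N : ℝ) ^ (p / 2 - 2) * ‖D N (twist m a b) t‖ ^ 4) :=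
            sum_le_sum fun t _ => hl _ (norm_nonneg _)
        _ = _ := by
            rw [sum_add_distrib, sum_const, Nat.card_Icc, nsmul_eq_mul, ← mul_sum]
            simp
    have h4 : (N : ℝ) ^ (p / 2 - 2) * (N : ℝ) ^ 2 = (N : ℝ) ^ (p / 2) := by
      rw [← Real.rpow_natCast (N : ℝ) 2, ← Real.rpow_add hN0]
      congr 1
      push_cast
      ring
    have h5 : 0 ≤ (N : ℝ) ^ (p / 2 - 2) := (Real.rpow_pos_of_pos hN0 _).le
    have hTN : 0 < T * (N : ℝ) ^ (p / 2) := by positivity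
    calc ∑ t ∈ Icc 1 T, ‖D N (twist m a b) t‖ ^ p ≤
        T * (N : ℝ) ^ (p / 2) + (N : ℝ) ^ (p / 2 - 2) * (C * (N : ℝ) ^ ε * ((N : ℝ) ^ 2 * T)) := by
          refine h3.trans ?_
          gcongr
      _ = T * (N : ℝ) ^ (p / 2) + C * (N : ℝ) ^ ε * (T * ((N : ℝ) ^ (p / 2 - 2) * (N : ℝ) ^ 2)) := by ring
      _ = T * (N : ℝ) ^ (p / 2) + C * (N : ℝ) ^ ε * (T * (N : ℝ) ^ (p / 2)) := by rw [h4]
      _ ≤ C * (N : ℝ) ^ ε * (T * (N : ℝ) ^ (p / 2)) + C * (N : ℝ) ^ ε * (T * (N : ℝ) ^ (p / 2)) := by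
          have := le_mul_of_one_le_left hTN.le hCN
          linarith
      _ = 2 * (C * (N : ℝ) ^ ε * (T * (N : ℝ) ^ (p / 2))) := by ring
      _ ≤ 2 ^ p * (C * (N : ℝ) ^ ε * (T * (N : ℝ) ^ (p / 2))) := by
          have h6 : (2 : ℝ) ≤ 2 ^ p := by
            calc (2 : ℝ) = 2 ^ (1 : ℝ) := (Real.rpow_one 2).symm
              _ ≤ 2 ^ p := Real.rpow_le_rpow_of_exponent_le (by norm_num) (by linarith)
          gcongr
      _ = C * 2 ^ p * (N : ℝ) ^ ε * (T * (N : ℝ) ^ (p / 2)) := by ring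
      _ ≤ C * 2 ^ p * (N : ℝ) ^ ε * ((N : ℝ) ^ p + T * (N : ℝ) ^ (p / 2)) := by
          have : 0 ≤ C * 2 ^ p * (N : ℝ) ^ ε := by positivity
          apply mul_le_mul_of_nonneg_left _ this
          linarith
  · have hl : ∀ x : ℝ, 0 ≤ x → x ≤ 2 * N → x ^ p ≤ (2 * (N : ℝ)) ^ (p - 4) * x ^ 4 := by
      intro x hx hx2
      rcases hx.eq_or_lt with h0 | h0
      · rw [← h0, Real.zero_rpow (by linarith)]
        simp
      · have h3 : x ^ p = x ^ (p - 4) * x ^ 4 := by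
          rw [← Real.rpow_natCast x 4, ← Real.rpow_add h0]
          congr 1
          push_cast
          ring
        rw [h3]
        have h4 : x ^ (p - 4) ≤ (2 * (N : ℝ)) ^ (p - 4) := Real.rpow_le_rpow hx hx2 (by linarith)
        gcongr
    have h3 : ∑ t ∈ Icc 1 T, ‖D N (twist m a b) t‖ ^ p ≤
        (2 * (N : ℝ)) ^ (p - 4) * ∑ t ∈ Icc 1 T, ‖D N (twist m a b) t‖ ^ 4 := by
      rw [mul_sum]
      exact sum_le_sum fun t _ => hl _ (norm_nonneg _) (D_le N hN m a b hb t)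
    have h4 : (2 * (N : ℝ)) ^ (p - 4) = 2 ^ (p - 4) * (N : ℝ) ^ (p - 4) :=
      Real.mul_rpow (by norm_num) hN0.le
    have h5 : (N : ℝ) ^ (p - 4) * ((N : ℝ) ^ 2 * (N : ℝ) ^ 2) = (N : ℝ) ^ p := by
      rw [← pow_add, ← Real.rpow_natCast (N : ℝ) (2 + 2), ← Real.rpow_add hN0]
      congr 1
      push_cast
      ring
    have h6 : (2 : ℝ) ^ (p - 4) ≤ 2 ^ p := Real.rpow_le_rpow_of_exponent_le (by norm_num) (by linarith)
    have h7 : 0 < (N : ℝ) ^ (p - 4) := Real.rpow_pos_of_pos hN0 _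
    have h8 : (0 : ℝ) < 2 ^ (p - 4) := Real.rpow_pos_of_pos (by norm_num) _
    calc ∑ t ∈ Icc 1 T, ‖D N (twist m a b) t‖ ^ p ≤
        (2 ^ (p - 4) * (N : ℝ) ^ (p - 4)) * (C * (N : ℝ) ^ ε * ((N : ℝ) ^ 2 * T)) := by
          rw [← h4]
          refine h3.trans ?_
          gcongr
      _ ≤ (2 ^ p * (N : ℝ) ^ (p - 4)) * (C * (N : ℝ) ^ ε * ((N : ℝ) ^ 2 * (N : ℝ) ^ 2)) := by gcongr
      _ = C * 2 ^ p * (N : ℝ) ^ ε * ((N : ℝ) ^ (p - 4) * ((N : ℝ) ^ 2 * (N : ℝ) ^ 2)) := by ring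
      _ = C * 2 ^ p * (N : ℝ) ^ ε * (N : ℝ) ^ p := by rw [h5]
      _ ≤ C * 2 ^ p * (N : ℝ) ^ ε * ((N : ℝ) ^ p + T * (N : ℝ) ^ (p / 2)) := by
          have : 0 ≤ C * 2 ^ p * (N : ℝ) ^ ε := by positivity
          apply mul_le_mul_of_nonneg_left _ this
          have : 0 < T * (N : ℝ) ^ (p / 2) := by positivity
          linarith

end Pool.Agent.Results.MP_2a1f0e_nt.AdditiveTwists
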