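import Pool.Agent.Q93.DP.Two

/-!
# Montgomery's `ℓ^q` conjecture: two slowly approaching values for every coefficient

Let `u_n`, `v_n` be complex numbers of modulus at most one whose distances are not smaller than a
power `n^(-ε)`, for every `ε > 0`. They may approach each other slowly, for instance
`u_n = 1` and `v_n = 1 - 1/log(n+3)`. For a point `e` of the Cantor space let `b_n = v_n` or `b_n = u_n`
according to the bit `e_n`, one fixed sequence for all lengths `N`.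

(1) The conjecture holds for all coefficients (which may change with `N`) if and only if it holds
along all these sequences, if and only if it holds along those of a set which is not meagre, if and
only if those along which it fails form a set of Hausdorff dimension less than one. The same for
every fixed `q ≥ 2` and `A ≥ 1`. So the conjecture is not easier for perturbations
`1 - e_n / log (n+3)` of the zeta sums which tend to zero.

(2) For independent coefficients `X_n` of modulus at most one it holds almost surely along `X` if and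
only if it holds along the means (for the sequences of (1): along `(u_n + v_n)/2`).
-/

set_option autoImplicit false

namespace Pool.Agent.Results.MP_2a1f0e_nt.CloseValues

open MeasureTheory ProbabilityTheory

attribute [local instance] PiNat.metricSpace

/-- `D(t) = ∑_{N ≤ n ≤ 2N} b_n n^{it}` at integers `t` -/
noncomputable def D (b : ℕ → ℂ) (N t : ℕ) : ℂ :=
  ∑ n ∈ Finset.Icc N (2 * N), b n * Complex.exp (Complex.I * (t : ℂ) * ((Real.log (n : ℝ) : ℝ) : ℂ))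

/-- the inequality of the conjecture, for all `N`, `T` with `N ≤ T ≤ N ^ A` -/
def Ineq (q A ε K : ℝ) (b : ℕ → ℂ) : Prop :=
  ∀ N T : ℕ, 1 ≤ N → N ≤ T → (T : ℝ) ≤ (N : ℝ) ^ A →
    ∑ t ∈ Finset.Icc 1 T, ‖D b N t‖ ^ q ≤
      K * (N : ℝ) ^ ε * ((N : ℝ) ^ q + (N : ℝ) ^ (q / 2) * (T : ℝ))

/-- the conjecture for `q` and `A` -/
def MontgomeryAt (q A : ℝ) : Prop :=
  ∀ ε : ℝ, 0 < ε → ∃ K : ℝ, ∀ b : ℕ → ℂ, (∀ n, ‖b n‖ ≤ 1) → Ineq q A ε K b

/-- the conjecture (Q1) -/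
def Montgomery : Prop := ∀ q : ℝ, 2 ≤ q → ∀ A : ℝ, 1 ≤ A → MontgomeryAt q A

/-- the conjecture for `q` and `A` along a fixed sequence -/
def AlongAt (q A : ℝ) (b : ℕ → ℂ) : Prop := ∀ ε : ℝ, 0 < ε → ∃ K : ℝ, Ineq q A ε K b

/-- the conjecture along a fixed sequence -/
def Along (b : ℕ → ℂ) : Prop := ∀ q : ℝ, 2 ≤ q → ∀ A : ℝ, 1 ≤ A → AlongAt q A b

/-- two admissible values for every coefficient, at distance at least `c n^(-ε)` for every `ε` -/
def Close (u v : ℕ → ℂ) : Prop :=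
  (∀ n, ‖u n‖ ≤ 1) ∧ (∀ n, ‖v n‖ ≤ 1) ∧
    ∀ ε : ℝ, 0 < ε → ∃ c : ℝ, 0 < c ∧ ∀ n : ℕ, 1 ≤ n → c * (n : ℝ) ^ (-ε) ≤ ‖v n - u n‖

/-- the selection: `b_n = v_n` if the bit `e_n` is `true`, `u_n` otherwise -/
def pick (u v : ℕ → ℂ) (e : ℕ → Bool) (n : ℕ) : ℂ := if e n then v n else u n

/-- the configurations -/
abbrev X (A : ℝ) := {x : ℕ × ℕ // 1 ≤ x.1 ∧ x.1 ≤ x.2 ∧ (x.2 : ℝ) ≤ (x.1 : ℝ) ^ A}

/-- the points -/
noncomputable def pts {A : ℝ} (x : X A) : Finset ℝ :=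
  (Finset.Icc 1 x.1.2).map ⟨Nat.cast, Nat.cast_injective⟩

/-- the majorant -/
noncomputable def g (q A ε : ℝ) (x : X A) : ℝ :=
  (x.1.1 : ℝ) ^ ε * ((x.1.1 : ℝ) ^ q + (x.1.1 : ℝ) ^ (q / 2) * (x.1.2 : ℝ))

lemma D_eq (b : ℕ → ℂ) (N t : ℕ) : D b N t = Pool.Agent.Q93.DP.D b N (2 * N) t := by
  unfold D Pool.Agent.Q93.DP.D
  refine Finset.sum_congr rfl fun n _ => ?_
  push_cast
  rfl

lemma ph_eq {q A : ℝ} (b : ℕ → ℂ) (x : X A) :
    Pool.Agent.Q93.DP.Ph q (pts x) x.1.1 (2 * x.1.1) b =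
      ∑ t ∈ Finset.Icc 1 x.1.2, ‖D b x.1.1 t‖ ^ q := by
  unfold Pool.Agent.Q93.DP.Ph pts
  rw [Finset.sum_map]
  refine Finset.sum_congr rfl fun t _ => ?_
  rw [D_eq]
  rfl

lemma bd_iff (q A ε : ℝ) (b : ℕ → ℂ) : (∃ K : ℝ, Ineq q A ε K b) ↔
    Pool.Agent.Q93.DP.Bd (fun x : X A => x.1.1) (fun x => 2 * x.1.1) pts (g q A ε) q b := by
  constructor
  · rintro ⟨K, hK⟩
    refine ⟨K, fun x => ?_⟩
    rw [ph_eq]
    refine (hK x.1.1 x.1.2 x.2.1 x.2.2.1 x.2.2.2).trans (le_of_eq ?_)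
    unfold g
    ring
  · rintro ⟨K, hK⟩
    refine ⟨K, fun N T h1 h2 h3 => ?_⟩
    have := hK ⟨(N, T), h1, h2, h3⟩
    rw [ph_eq] at this
    refine this.trans (le_of_eq ?_)
    unfold g
    ring

lemma ubd_iff (q A : ℝ) : MontgomeryAt q A ↔ ∀ ε : ℝ, 0 < ε →
    Pool.Agent.Q93.DP.UBd (fun x : X A => x.1.1) (fun x => 2 * x.1.1) pts (g q A ε) q := by
  constructor
  · intro h ε hε
    obtain ⟨K, hK⟩ := h ε hε
    refine ⟨K, fun x b hb => ?_⟩
    rw [ph_eq]
    refine (hK b hb x.1.1 x.1.2 x.2.1 x.2.2.1 x.2.2.2).trans (le_of_eq ?_)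
    unfold g
    ring
  · intro h ε hε
    obtain ⟨K, hK⟩ := h ε hε
    refine ⟨K, fun b hb N T h1 h2 h3 => ?_⟩
    have := hK ⟨(N, T), h1, h2, h3⟩ b hb
    rw [ph_eq] at this
    refine this.trans (le_of_eq ?_)
    unfold g
    ring

lemma g_pos (q A ε : ℝ) (x : X A) : 0 < g q A ε x := by
  have : (0 : ℝ) < x.1.1 := by exact_mod_cast x.2.1
  unfold g
  positivity

lemma card_g {q : ℝ} (hq : 0 ≤ q) (A : ℝ) {ε : ℝ} (hε : 0 < ε) (x : X A) :
    1 * ((pts x).card : ℝ) ≤ g q A ε x := by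
  have h1 : (1 : ℝ) ≤ x.1.1 := by exact_mod_cast x.2.1
  have h2 : (1 : ℝ) ≤ (x.1.1 : ℝ) ^ ε := Real.one_le_rpow h1 hε.le
  have h3 : (0 : ℝ) ≤ x.1.2 := Nat.cast_nonneg _
  have h4 : (1 : ℝ) ≤ (x.1.1 : ℝ) ^ (q / 2) := Real.one_le_rpow h1 (by linarith)
  have h5 : 0 ≤ (x.1.1 : ℝ) ^ q := by positivity
  unfold g pts
  rw [Finset.card_map, one_mul, Nat.card_Icc, Nat.add_sub_cancel]
  calc (x.1.2 : ℝ) = 1 * (0 + 1 * x.1.2) := by ring
    _ ≤ (x.1.1 : ℝ) ^ ε * ((x.1.1 : ℝ) ^ q + (x.1.1 : ℝ) ^ (q / 2) * (x.1.2 : ℝ)) := by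
        apply mul_le_mul h2 _ (by positivity) (by positivity)
        have := mul_le_mul_of_nonneg_right h4 h3
        linarith

lemma adm_at {q : ℝ} (hq : 0 < q) (A : ℝ) : Pool.Agent.Q93.DP.Adm (AlongAt q A) := by
  have e : AlongAt q A = fun b => ∀ ε : ℝ, 0 < ε → Pool.Agent.Q93.DP.Bd (fun x : X A => x.1.1)
      (fun x => 2 * x.1.1) pts (g q A ε) q b := by
    funext b
    apply propext
    unfold AlongAt
    constructor
    · exact fun h ε hε => (bd_iff q A ε b).1 (h ε hε)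
    · exact fun h ε hε => (bd_iff q A ε b).2 (h ε hε)
  rw [e]
  apply Pool.Agent.Q93.DP.Adm.all (p := fun ε : ℝ => 0 < ε)
    (P := fun ε b => Pool.Agent.Q93.DP.Bd (fun x : X A => x.1.1) (fun x => 2 * x.1.1) pts
      (g q A ε) q b)
  intro ε hε
  apply Pool.Agent.Q93.DP.adm_Bd _ _ _ _ hq.le
  intro a ha
  rw [← bd_iff]
  obtain ⟨C, hC0, hC⟩ := Pool.Agent.Q93.DP.small_dyadic ha A (2 * ε / q) (by positivity)
  refine ⟨C ^ (q / 2), fun N T h1 h2 h3 => ?_⟩
  have hN1 : (1 : ℝ) ≤ N := by exact_mod_cast h1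
  have hN0 : (0 : ℝ) < N := by linarith
  have hpt : ∀ t ∈ Finset.Icc 1 T, ‖D a N t‖ ^ q ≤ C ^ (q / 2) * ((N : ℝ) ^ ε * (N : ℝ) ^ (q / 2)) := by
    intro t ht
    rw [Finset.mem_Icc] at ht
    have h4 := hC N h1 t (by
      rw [Nat.abs_cast]
      exact le_trans (by exact_mod_cast ht.2) h3)
    rw [← D_eq] at h4
    have h5 : ‖D a N t‖ ^ q = (‖D a N t‖ ^ 2) ^ (q / 2) := by
      rw [← Real.rpow_natCast, ← Real.rpow_mul (norm_nonneg _)]
      congr 1
      push_cast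
      ring
    rw [h5]
    refine (Real.rpow_le_rpow (by positivity) h4 (by positivity)).trans (le_of_eq ?_)
    rw [Real.mul_rpow hC0 (by positivity), Real.mul_rpow (by positivity) hN0.le,
      ← Real.rpow_mul hN0.le]
    have : 2 * ε / q * (q / 2) = ε := by field_simp
    rw [this]
  have h4 := Finset.sum_le_card_nsmul _ _ _ hpt
  rw [nsmul_eq_mul, Nat.card_Icc, Nat.add_sub_cancel] at h4
  refine h4.trans ?_
  have h5 : 0 ≤ C ^ (q / 2) * (N : ℝ) ^ ε * (N : ℝ) ^ q := by positivity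
  linarith

lemma adm_all : Pool.Agent.Q93.DP.Adm Along :=
  ⟨fun a b ha hb q hq A hA => (adm_at (by linarith) A).add a b (ha q hq A hA) (hb q hq A hA),
    fun c a ha q hq A hA => (adm_at (by linarith) A).smul c a (ha q hq A hA),
    fun a ha q hq A _ => (adm_at (by linarith) A).small a ha⟩

lemma pick_norm {u v : ℕ → ℂ} (h : Close u v) (e : ℕ → Bool) (n : ℕ) : ‖pick u v e n‖ ≤ 1 := by
  unfold pick
  split_ifs
  · exact h.2.1 n
  · exact h.1 n

lemma meagre_at {q A : ℝ} (hq : 1 ≤ q) {u v : ℕ → ℂ} (huv : Close u v) (h : ¬ MontgomeryAt q A) :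
    IsMeagre {e : ℕ → Bool | AlongAt q A (pick u v e)} := by
  rw [ubd_iff] at h
  push Not at h
  obtain ⟨ε, hε, hu⟩ := h
  obtain ⟨c, hc, hcl⟩ := huv.2.2 (ε / (2 * q)) (by positivity)
  have hm := Pool.Agent.Q93.DP.meagre_of_not2 (fun x : X A => x.1.1) (fun x => 2 * x.1.1) pts
    (g q A ε) (g q A (ε / 2)) hq (c := 1) (by norm_num) (g_pos q A (ε / 2))
    (card_g (by linarith) A hε) u v (fun x => c * ((2 * x.1.1 : ℕ) : ℝ) ^ (-(ε / (2 * q))))
    (fun x => by
      have : (0 : ℝ) < ((2 * x.1.1 : ℕ) : ℝ) := by exact_mod_cast (by have := x.2.1; omega)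
      positivity)
    (fun x n hn => by
      rw [Finset.mem_Icc] at hn
      have hx := x.2.1
      have h1 : 1 ≤ n := le_trans hx hn.1
      refine le_trans ?_ (hcl n h1)
      apply mul_le_mul_of_nonneg_left _ hc.le
      apply Real.rpow_le_rpow_of_nonpos (by exact_mod_cast h1) (by exact_mod_cast hn.2)
      have : 0 < ε / (2 * q) := by positivity
      linarith)
    ((1 / c) ^ q * 2 ^ (ε / 2))
    (fun x => by
      have hx : (0 : ℝ) < x.1.1 := by exact_mod_cast x.2.1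
      have e1 : (1 / (c * ((2 * x.1.1 : ℕ) : ℝ) ^ (-(ε / (2 * q))))) ^ q =
          (1 / c) ^ q * (2 ^ (ε / 2) * (x.1.1 : ℝ) ^ (ε / 2)) := by
        have hy : (0 : ℝ) < ((2 * x.1.1 : ℕ) : ℝ) := by exact_mod_cast (by have := x.2.1; omega)
        have hB : 1 / (c * ((2 * x.1.1 : ℕ) : ℝ) ^ (-(ε / (2 * q)))) =
            (1 / c) * ((2 * x.1.1 : ℕ) : ℝ) ^ (ε / (2 * q)) := by
          rw [Real.rpow_neg hy.le]; field_simp
        rw [hB, Real.mul_rpow (by positivity) (by positivity), ← Real.rpow_mul hy.le]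
        have : ε / (2 * q) * q = ε / 2 := by field_simp
        rw [this]
        push_cast
        rw [Real.mul_rpow (by norm_num) hx.le]
      rw [e1]
      unfold g
      have e2 : (x.1.1 : ℝ) ^ ε = (x.1.1 : ℝ) ^ (ε / 2) * (x.1.1 : ℝ) ^ (ε / 2) := by
        rw [← Real.rpow_add hx]; congr 1; ring
      rw [e2]
      apply le_of_eq
      ring) hu
  refine hm.mono ?_
  intro e he
  exact (bd_iff q A (ε / 2) _).1 (he (ε / 2) (by positivity))

lemma univ_not_meagre : ¬ IsMeagre (Set.univ : Set (ℕ → Bool)) :=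
  not_isMeagre_of_isOpen isOpen_univ Set.univ_nonempty

lemma along_of {q A : ℝ} (h : MontgomeryAt q A) (b : ℕ → ℂ) (hb : ∀ n, ‖b n‖ ≤ 1) :
    AlongAt q A b := by
  intro ε hε
  obtain ⟨K, hK⟩ := h ε hε
  exact ⟨K, hK b hb⟩

lemma dim_at {q A : ℝ} (hq : 1 ≤ q) {u v : ℕ → ℂ} (huv : Close u v) (h : ¬ MontgomeryAt q A) :
    1 ≤ dimH {e : ℕ → Bool | ¬ AlongAt q A (pick u v e)} := by
  obtain ⟨e0, he0⟩ : ∃ e0 : ℕ → Bool, ¬ AlongAt q A (pick u v e0) := by
    by_contra hcon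
    push Not at hcon
    exact univ_not_meagre ((meagre_at hq huv h).mono fun e _ => hcon e)
  exact Pool.Agent.Q93.DP.dim_two (adm_at (by linarith) A) u v huv.1 huv.2.1 e0 he0

/-- the example -/
noncomputable def ex (n : ℕ) : ℂ := ((1 - 1 / Real.log (n + 3) : ℝ) : ℂ)

lemma ex_close : Close (fun _ => 1) ex := by
  have hlog : ∀ n : ℕ, 1 ≤ Real.log ((n : ℝ) + 3) := by
    intro n
    have h0 : (0 : ℝ) ≤ n := Nat.cast_nonneg n
    rw [Real.le_log_iff_exp_le (by linarith)]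
    have := Real.exp_one_lt_d9
    linarith
  refine ⟨fun n => by simp, fun n => ?_, fun ε hε => ⟨ε / 4 ^ ε, by positivity, fun n hn => ?_⟩⟩
  · have h1 := hlog n
    have h2 : 1 / Real.log ((n : ℝ) + 3) ≤ 1 := by
      rw [div_le_one (by linarith)]; exact h1
    have h3 : 0 < 1 / Real.log ((n : ℝ) + 3) := by positivity
    unfold ex
    rw [Complex.norm_real, Real.norm_of_nonneg (by linarith)]
    linarith
  · have h1 := hlog n
    have hn1 : (1 : ℝ) ≤ n := by exact_mod_cast hn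
    have h3 : 0 < 1 / Real.log ((n : ℝ) + 3) := by positivity
    have e : ‖ex n - 1‖ = 1 / Real.log ((n : ℝ) + 3) := by
      unfold ex
      have : (((1 - 1 / Real.log ((n : ℝ) + 3) : ℝ) : ℂ)) - 1 =
          ((-(1 / Real.log ((n : ℝ) + 3)) : ℝ) : ℂ) := by push_cast; ring
      rw [this, Complex.norm_real, norm_neg, Real.norm_of_nonneg h3.le]
    rw [e]
    have h4 : Real.log ((n : ℝ) + 3) ≤ (4 * (n : ℝ)) ^ ε / ε := by
      calc Real.log ((n : ℝ) + 3) ≤ Real.log (4 * (n : ℝ)) :=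
            Real.log_le_log (by linarith) (by linarith)
        _ ≤ _ := Real.log_le_rpow_div (by positivity) hε
    rw [Real.mul_rpow (by norm_num) (by positivity)] at h4
    rw [le_div_iff₀ (by linarith)]
    calc ε / 4 ^ ε * (n : ℝ) ^ (-ε) * Real.log ((n : ℝ) + 3)
        ≤ ε / 4 ^ ε * (n : ℝ) ^ (-ε) * (4 ^ ε * (n : ℝ) ^ ε / ε) :=
          mul_le_mul_of_nonneg_left h4 (by positivity)
      _ = 1 := by
          rw [Real.rpow_neg (by positivity)]
          field_simp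

lemma ex_tendsto : Filter.Tendsto ex Filter.atTop (nhds 1) := by
  have h1 : Filter.Tendsto (fun n : ℕ => Real.log ((n : ℝ) + 3)) Filter.atTop Filter.atTop :=
    Real.tendsto_log_atTop.comp (Filter.tendsto_atTop_add_const_right _ _ tendsto_natCast_atTop_atTop)
  have h2 : Filter.Tendsto (fun n : ℕ => (1 - 1 / Real.log ((n : ℝ) + 3) : ℝ)) Filter.atTop
      (nhds (1 - 0)) := by
    apply Filter.Tendsto.sub tendsto_const_nhds
    simp only [one_div]
    exact h1.inv_tendsto_atTop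
  rw [sub_zero] at h2
  have h3 := (Complex.continuous_ofReal.tendsto 1).comp h2
  rw [Complex.ofReal_one] at h3
  exact h3

theorem result :
    (∀ u v : ℕ → ℂ, Close u v →
      ((Montgomery ↔ ∀ e, Along (pick u v e)) ∧
        (Montgomery ↔ ¬ IsMeagre {e | Along (pick u v e)}) ∧
        (Montgomery ↔ dimH {e | ¬ Along (pick u v e)} < 1)) ∧
      (∀ q : ℝ, 1 ≤ q → ∀ A : ℝ,
        (MontgomeryAt q A ↔ ∀ e, AlongAt q A (pick u v e)) ∧
        (MontgomeryAt q A ↔ ¬ IsMeagre {e | AlongAt q A (pick u v e)}) ∧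
        (MontgomeryAt q A ↔ dimH {e | ¬ AlongAt q A (pick u v e)} < 1))) ∧
    (Close (fun _ => 1) ex ∧ Filter.Tendsto ex Filter.atTop (nhds 1)) ∧
    (∀ (Ω : Type) [MeasurableSpace Ω] (μ : Measure Ω) [IsProbabilityMeasure μ] (X : ℕ → Ω → ℂ),
      (∀ n, Measurable (X n)) → iIndepFun X μ → (∀ n ω, ‖X n ω‖ ≤ 1) →
      (∀ᵐ ω ∂μ, (Along (fun n => X n ω) ↔ Along (fun n => ∫ ω', X n ω' ∂μ))) ∧
      (∀ q : ℝ, 1 ≤ q → ∀ A : ℝ,
        ∀ᵐ ω ∂μ, (AlongAt q A (fun n => X n ω) ↔ AlongAt q A (fun n => ∫ ω', X n ω' ∂μ)))) := by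
  have hnot : ¬ Montgomery → ∃ q : ℝ, 2 ≤ q ∧ ∃ A : ℝ, 1 ≤ A ∧ ¬ MontgomeryAt q A := by
    intro h
    unfold Montgomery at h
    push Not at h
    exact h
  refine ⟨fun u v huv => ⟨⟨⟨?_, ?_⟩, ⟨?_, ?_⟩, ⟨?_, ?_⟩⟩, fun q hq A => ⟨⟨?_, ?_⟩, ⟨?_, ?_⟩,
    ⟨?_, ?_⟩⟩⟩, ⟨ex_close, ex_tendsto⟩, ?_⟩
  · exact fun h e q hq A hA => along_of (h q hq A hA) _ (pick_norm huv e)
  · intro h
    by_contra hcon
    obtain ⟨q, hq, A, hA, hqA⟩ := hnot hcon
    exact univ_not_meagre ((meagre_at (by linarith) huv hqA).mono fun e _ => h e q hq A hA)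
  · intro h hm
    exact univ_not_meagre (hm.mono fun e _ q hq A hA => along_of (h q hq A hA) _ (pick_norm huv e))
  · intro h
    by_contra hcon
    obtain ⟨q, hq, A, hA, hqA⟩ := hnot hcon
    exact h ((meagre_at (by linarith) huv hqA).mono fun e he => he q hq A hA)
  · intro h
    have he : {e : ℕ → Bool | ¬ Along (pick u v e)} = ∅ := by
      rw [Set.eq_empty_iff_forall_notMem]
      exact fun e he => he fun q hq A hA => along_of (h q hq A hA) _ (pick_norm huv e)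
    rw [he, dimH_empty]
    exact one_pos
  · intro h
    by_contra hcon
    obtain ⟨q, hq, A, hA, hqA⟩ := hnot hcon
    have h1 := (dim_at (by linarith) huv hqA).trans
      (dimH_mono (t := {e : ℕ → Bool | ¬ Along (pick u v e)}) fun e he hc => he (hc q hq A hA))
    exact absurd h (not_lt.2 h1)
  · exact fun h e => along_of h _ (pick_norm huv e)
  · intro h
    by_contra hcon
    exact univ_not_meagre ((meagre_at hq huv hcon).mono fun e _ => h e)
  · intro h hm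
    exact univ_not_meagre (hm.mono fun e _ => along_of h _ (pick_norm huv e))
  · intro h
    by_contra hcon
    exact h (meagre_at hq huv hcon)
  · intro h
    have he : {e : ℕ → Bool | ¬ AlongAt q A (pick u v e)} = ∅ := by
      rw [Set.eq_empty_iff_forall_notMem]
      exact fun e he => he (along_of h _ (pick_norm huv e))
    rw [he, dimH_empty]
    exact one_pos
  · intro h
    by_contra hcon
    exact absurd h (not_lt.2 (dim_at hq huv hcon))
  · intro Ω _ μ _ X hm hi hb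
    exact ⟨Pool.Agent.Q93.DP.as_iff adm_all hm hi hb, fun q hq A =>
      Pool.Agent.Q93.DP.as_iff (adm_at (by linarith) A) hm hi hb⟩

end Pool.Agent.Results.MP_2a1f0e_nt.CloseValues
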