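import Mathlib
import Pool.Agent.Q261.DQ.Final

set_option autoImplicit false

/-!
# Montgomery's `ℓ^q` inequality fails for coefficients bounded by `N^λ`

Replace in Q1 the hypothesis `|b_n| ≤ 1` by `|b_n| ≤ N^λ` and `∑ |b_n|² ≤ N`. For every `λ > 0` the
inequality `∑_{t ≤ T} |D(t)|^q ≤ C N^ε (N^q + T N^(q/2))` becomes false: with `T = N^A`, `1 < A < 2`, it
fails by a power of `N` for all large `N`, for all `q` with `2 < q ≤ 2 A` (the critical exponent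
`q = 2 A` included) as soon as `λ > (A - 1)/2`; more generally for `2 < q`, `(q - 2)(1 - κ) < 2 (A - 1)`
and `λ > (A - 1 + κ)/2`, where `0 < κ < 1 - A/2`.

The polynomials are those of `Pool/Agent/Q261/DQ`: the signs of the coefficients are constant on the
progressions `s (m + j) + a`, `j ≤ J`, and for the integers `t` near the multiples of `2 π m` the terms
of each progression have nearly the same argument.
-/

namespace Pool.Agent.Results.MP_2a1f0e_nt.LargerCoefficients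

open Finset Filter

/-- `D(t) = ∑_{N ≤ n ≤ 2N} b_n n^{it}` -/
noncomputable def D (N : ℕ) (b : ℕ → ℂ) (t : ℝ) : ℂ :=
  ∑ n ∈ Icc N (2 * N), b n * Complex.exp (Complex.I * (t : ℂ) * ((Real.log (n : ℝ) : ℝ) : ℂ))

/-- For some `ε > 0` and all large `N` there are coefficients with `|b_n| ≤ N^lam`, `∑ |b_n|² ≤ N` such that
for `T = ⌊N^A⌋` the sum `∑_{1 ≤ t ≤ T} |D(t)|^q` is at least `N^ε (N^q + N^(q/2) T)`. -/
def Fails (q A lam : ℝ) : Prop :=
  ∃ ε : ℝ, 0 < ε ∧ ∀ᶠ N : ℕ in atTop, ∃ b : ℕ → ℂ, (∀ n, ‖b n‖ ≤ (N : ℝ) ^ lam) ∧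
    ∑ n ∈ Icc N (2 * N), ‖b n‖ ^ 2 ≤ N ∧
    (N : ℝ) ^ ε * ((N : ℝ) ^ q + (N : ℝ) ^ (q / 2) * (⌊(N : ℝ) ^ A⌋₊ : ℝ)) ≤
      ∑ t ∈ Icc 1 ⌊(N : ℝ) ^ A⌋₊, ‖D N b (t : ℝ)‖ ^ q

theorem fails (A κ q lam : ℝ) (hA : 1 < A) (hκ : 0 < κ) (hκA : κ < 1 - A / 2)
    (hlam : (A - 1 + κ) / 2 < lam) (hq : 2 < q) (hq2 : (q - 2) * (1 - κ) < 2 * (A - 1)) :
    Fails q A lam := by
  classical
  have h := Pool.Agent.Q261.DQ.params κ (A - 1) lam hκ (by linarith) (by linarith) (by linarith)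
  have eA : 1 + (A - 1) = A := by ring
  rw [eA] at h
  set g1 : ℝ := κ * (q / 2 - 1) with hg1
  set g2 : ℝ := (A - 1) - (q / 2 - 1) * (1 - κ) with hg2
  have hg1p : 0 < g1 := mul_pos hκ (by linarith)
  have hg2p : 0 < g2 := by rw [hg2]; linarith
  obtain ⟨ε, hε⟩ : ∃ ε : ℝ, ε = min g1 g2 / 2 := ⟨_, rfl⟩
  have hε0 : 0 < ε := by
    rw [hε]
    have := lt_min hg1p hg2p
    linarith
  have hε1 : ε ≤ g1 / 2 := by rw [hε]; linarith [min_le_left g1 g2]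
  have hε2 : ε ≤ g2 / 2 := by rw [hε]; linarith [min_le_right g1 g2]
  obtain ⟨c, hc⟩ : ∃ c : ℝ, c = 1200 * (48 : ℝ) ^ (q / 2) := ⟨_, rfl⟩
  have hc0 : 0 < c := by rw [hc]; positivity
  refine ⟨ε, hε0, ?_⟩
  filter_upwards [h, Pool.Agent.Q261.DQ.ev_pow (4 * c) (g1 / 2) (by positivity),
    Pool.Agent.Q261.DQ.ev_pow (4 * c) (g2 / 2) (by positivity), eventually_ge_atTop 1] with N hN e1 e2 hN1
  obtain ⟨b, W, hb1, hb2, hW1, hW2⟩ := hN
  have hNr : (1 : ℝ) ≤ N := by exact_mod_cast hN1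
  have hN0 : (0 : ℝ) < N := by linarith
  have pw : ∀ a b : ℝ, (N : ℝ) ^ a * (N : ℝ) ^ b = (N : ℝ) ^ (a + b) := fun a b =>
    (Real.rpow_add hN0 a b).symm
  have pos : ∀ a : ℝ, 0 < (N : ℝ) ^ a := fun a => Real.rpow_pos_of_pos hN0 a
  have mono : ∀ a b : ℝ, a ≤ b → (N : ℝ) ^ a ≤ (N : ℝ) ^ b := fun a b h =>
    Real.rpow_le_rpow_of_exponent_le hNr h
  set T : ℕ := ⌊(N : ℝ) ^ A⌋₊ with hT
  have hTge : (N : ℝ) ^ A ≤ 2 * (T : ℝ) := by
    have h3 := Nat.lt_floor_add_one ((N : ℝ) ^ A)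
    rw [← hT] at h3
    have h4 : 1 ≤ T := by
      apply Nat.le_floor
      rw [Nat.cast_one]
      have := mono 0 A (by linarith)
      rwa [Real.rpow_zero] at this
    have h5 : (1 : ℝ) ≤ (T : ℝ) := by exact_mod_cast h4
    linarith
  have hT0 : (0 : ℝ) < T := by have := pos A; linarith
  refine ⟨fun n => (b n : ℂ), fun n => ?_, ?_, ?_⟩
  · rw [Complex.norm_real, Real.norm_eq_abs]
    exact hb1 n
  · refine le_trans (le_of_eq ?_) hb2
    apply sum_congr rfl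
    intro n _
    rw [Complex.norm_real, Real.norm_eq_abs, sq_abs]
  · -- the lower bound for the moment
    have hDe : ∀ t : ℕ, D N (fun n => (b n : ℂ)) (t : ℝ) =
        ∑ n ∈ Icc N (2 * N), (b n : ℂ) * Pool.Agent.Q261.DP.ph (t : ℝ) n := by
      intro t
      unfold D Pool.Agent.Q261.DP.ph
      apply sum_congr rfl
      intro n _
      congr 2
      push_cast
      ring
    have hval : ∀ t ∈ W, ((N : ℝ) ^ (1 + κ) / 48) ^ (q / 2) ≤ ‖D N (fun n => (b n : ℂ)) (t : ℝ)‖ ^ q := by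
      intro t ht
      obtain ⟨_, _, h3⟩ := hW1 t ht
      rw [← hDe t] at h3
      have h4 := Real.rpow_le_rpow (by positivity) h3 (by linarith : 0 ≤ q / 2)
      refine h4.trans (le_of_eq ?_)
      rw [← Real.rpow_natCast, ← Real.rpow_mul (norm_nonneg _)]
      congr 1
      push_cast
      ring
    have hlow : (W.card : ℝ) * ((N : ℝ) ^ (1 + κ) / 48) ^ (q / 2) ≤
        ∑ t ∈ Icc 1 T, ‖D N (fun n => (b n : ℂ)) (t : ℝ)‖ ^ q := by
      calc (W.card : ℝ) * ((N : ℝ) ^ (1 + κ) / 48) ^ (q / 2) =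
            ∑ t ∈ W, ((N : ℝ) ^ (1 + κ) / 48) ^ (q / 2) := by rw [sum_const, nsmul_eq_mul]
        _ ≤ ∑ t ∈ W, ‖D N (fun n => (b n : ℂ)) (t : ℝ)‖ ^ q := sum_le_sum hval
        _ ≤ _ := by
            apply sum_le_sum_of_subset_of_nonneg
            · intro t ht
              obtain ⟨h3, h4, _⟩ := hW1 t ht
              exact mem_Icc.2 ⟨h3, h4⟩
            · intro t _ _
              positivity
    refine le_trans ?_ hlow
    have hpow : ((N : ℝ) ^ (1 + κ) / 48) ^ (q / 2) = (N : ℝ) ^ (q / 2 + g1 + κ) / (48 : ℝ) ^ (q / 2) := by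
      rw [Real.div_rpow (pos _).le (by norm_num), ← Real.rpow_mul hN0.le]
      congr 2
      rw [hg1]
      ring
    rw [hpow]
    -- reduce to an inequality between powers
    have h5 : (T : ℝ) * (N : ℝ) ^ (q / 2 + g1) ≤ c * ((W.card : ℝ) * ((N : ℝ) ^ (q / 2 + g1 + κ) / (48 : ℝ) ^ (q / 2))) := by
      have e : c * ((W.card : ℝ) * ((N : ℝ) ^ (q / 2 + g1 + κ) / (48 : ℝ) ^ (q / 2))) =
          (1200 * (N : ℝ) ^ κ * W.card) * (N : ℝ) ^ (q / 2 + g1) := by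
        have h48 : (0 : ℝ) < (48 : ℝ) ^ (q / 2) := by positivity
        have e1 : (N : ℝ) ^ (q / 2 + g1 + κ) = (N : ℝ) ^ (q / 2 + g1) * (N : ℝ) ^ κ := (pw _ _).symm
        rw [hc, e1]
        field_simp
      rw [e]
      exact mul_le_mul_of_nonneg_right hW2 (pos _).le
    have h6 : c * ((N : ℝ) ^ ε * ((N : ℝ) ^ q + (N : ℝ) ^ (q / 2) * T)) ≤ (T : ℝ) * (N : ℝ) ^ (q / 2 + g1) := by
      have ha : 4 * c * ((N : ℝ) ^ ε * ((N : ℝ) ^ (q / 2) * T)) ≤ (T : ℝ) * (N : ℝ) ^ (q / 2 + g1) := by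
        calc 4 * c * ((N : ℝ) ^ ε * ((N : ℝ) ^ (q / 2) * T)) ≤
              (N : ℝ) ^ (g1 / 2) * ((N : ℝ) ^ (g1 / 2) * ((N : ℝ) ^ (q / 2) * T)) := by
              have := mono _ _ hε1
              gcongr
          _ = (T : ℝ) * ((N : ℝ) ^ (g1 / 2) * (N : ℝ) ^ (g1 / 2) * (N : ℝ) ^ (q / 2)) := by ring
          _ = _ := by rw [pw, pw]; congr 2; ring
      have hb : 4 * c * ((N : ℝ) ^ ε * (N : ℝ) ^ q) ≤ 2 * ((T : ℝ) * (N : ℝ) ^ (q / 2 + g1)) := by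
        calc 4 * c * ((N : ℝ) ^ ε * (N : ℝ) ^ q) ≤
              (N : ℝ) ^ (g2 / 2) * ((N : ℝ) ^ (g2 / 2) * (N : ℝ) ^ q) := by
              have := mono _ _ hε2
              gcongr
          _ = (N : ℝ) ^ A * (N : ℝ) ^ (q / 2 + g1) := by
              rw [pw, pw, pw]
              congr 1
              rw [hg2, hg1]
              ring
          _ ≤ (2 * T) * (N : ℝ) ^ (q / 2 + g1) := by gcongr
          _ = _ := by ring
      have hR : 0 ≤ (T : ℝ) * (N : ℝ) ^ (q / 2 + g1) := by positivity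
      have e : c * ((N : ℝ) ^ ε * ((N : ℝ) ^ q + (N : ℝ) ^ (q / 2) * T)) =
          (4 * c * ((N : ℝ) ^ ε * (N : ℝ) ^ q)) / 4 + (4 * c * ((N : ℝ) ^ ε * ((N : ℝ) ^ (q / 2) * T))) / 4 := by
        ring
      rw [e]
      linarith
    exact le_of_mul_le_mul_left (h6.trans h5) hc0

/-- **Main theorem.** -/
theorem result :
    (∀ A q lam : ℝ, 1 < A → A < 2 → 2 < q → q ≤ 2 * A → (A - 1) / 2 < lam → Fails q A lam) ∧
    (∀ A κ q lam : ℝ, 1 < A → 0 < κ → κ < 1 - A / 2 → (A - 1 + κ) / 2 < lam → 2 < q →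
      (q - 2) * (1 - κ) < 2 * (A - 1) → Fails q A lam) := by
  refine ⟨?_, fun A κ q lam h1 h2 h3 h4 h5 h6 => fails A κ q lam h1 h2 h3 h4 h5 h6⟩
  intro A q lam hA hA2 hq hqA hlam
  have h1 : 0 < min ((1 - A / 2) / 2) ((2 * lam - (A - 1)) / 2) := lt_min (by linarith) (by linarith)
  have h2 := min_le_left ((1 - A / 2) / 2) ((2 * lam - (A - 1)) / 2)
  have h3 := min_le_right ((1 - A / 2) / 2) ((2 * lam - (A - 1)) / 2)
  set κ := min ((1 - A / 2) / 2) ((2 * lam - (A - 1)) / 2)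
  exact fails A κ q lam hA h1 (by linarith) (by linarith) hq (by nlinarith)

end Pool.Agent.Results.MP_2a1f0e_nt.LargerCoefficients
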